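import Pool.Agent.Lib.MP_b77ea7_nt.Defs

/-!
# MP_b77ea7_nt: the points with a finite orbit, topological conjugacies (helper49)
-/

set_option autoImplicit false

namespace TwoAdicQ

/-- The points of `Q_(2)` with a finite orbit under `T_k`. -/
def Fin49 (k : ℕ) : Set ℚ := {x | x ∈ D ∧ FinOrb k x}

/-- `h` is continuous on `Fin49 k` for the 2-adic metric. -/
def ContFin (k : ℕ) (h : ℚ → ℚ) : Prop :=
  ∀ x ∈ Fin49 k, ∀ n, ∃ m, ∀ y ∈ Fin49 k, Near m x y → Near n (h x) (h y)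

/-- `h` is uniformly continuous on some ball of `Fin49 k`. -/
def UCBallFin (k : ℕ) (h : ℚ → ℚ) : Prop :=
  ∃ a ∈ Fin49 k, ∃ r, ∀ n, ∃ m, ∀ x ∈ Fin49 k, ∀ y ∈ Fin49 k,
    Near r a x → Near r a y → Near m x y → Near n (h x) (h y)

/-- `h`, with inverse `g`, is a topological conjugacy from `T_k` on `Fin49 k` to `T_l` on
`Fin49 l`. -/
structure TopConjFin (k l : ℕ) (h g : ℚ → ℚ) : Prop where
  mh : ∀ x ∈ Fin49 k, h x ∈ Fin49 l
  mg : ∀ y ∈ Fin49 l, g y ∈ Fin49 k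
  gh : ∀ x ∈ Fin49 k, g (h x) = x
  hg : ∀ y ∈ Fin49 l, h (g y) = y
  eq : ∀ x ∈ Fin49 k, h (T k x) = T l (h x)
  ch : ContFin k h
  cg : ContFin l g

end TwoAdicQ
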