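import Mathlib

/-!
# MP_b77ea7_nt: an involution of the eventually periodic 0-1 sequences that commutes with the shift
and is not uniformly continuous (helper49)
-/

set_option autoImplicit false

open Classical

namespace NonRigid49

/-- The sequence `1 0 0 1 1 1 1 1 1 0 1 ..` with zeros at 1, 2 and at the squares from 9 on. -/
noncomputable def z (i : ℕ) : Bool := !decide (i = 1 ∨ i = 2 ∨ ∃ n, 3 ≤ n ∧ i = n ^ 2)

theorem z_false {i : ℕ} : z i = false ↔ (i = 1 ∨ i = 2 ∨ ∃ n, 3 ≤ n ∧ i = n ^ 2) := by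
  unfold z
  rw [Bool.not_eq_false']
  exact decide_eq_true_iff

theorem z_true {i : ℕ} : z i = true ↔ ¬ (i = 1 ∨ i = 2 ∨ ∃ n, 3 ≤ n ∧ i = n ^ 2) := by
  rw [← z_false]
  simp

theorem sq_big {n : ℕ} (h : 3 ≤ n) : 9 ≤ n ^ 2 := by nlinarith

theorem z0 : z 0 = true := by
  rw [z_true]
  rintro (h | h | ⟨n, h, h'⟩)
  · omega
  · omega
  · have := sq_big h
    omega

theorem z1 : z 1 = false := z_false.2 (Or.inl rfl)

theorem z2 : z 2 = false := z_false.2 (Or.inr (Or.inl rfl))

theorem z3 : z 3 = true := by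
  rw [z_true]
  rintro (h | h | ⟨n, h, h'⟩)
  · omega
  · omega
  · have := sq_big h
    omega

theorem z4 : z 4 = true := by
  rw [z_true]
  rintro (h | h | ⟨n, h, h'⟩)
  · omega
  · omega
  · have := sq_big h
    omega

theorem sq_gap {n m p : ℕ} (hp : 1 ≤ p) (hn : p ≤ n) (h : n ^ 2 + p = m ^ 2) : False := by
  rcases Nat.lt_or_ge n m with h1 | h1
  · have : (n + 1) ^ 2 ≤ m ^ 2 := Nat.pow_le_pow_left h1 2
    nlinarith
  · have : m ^ 2 ≤ n ^ 2 := Nat.pow_le_pow_left h1 2
    omega

theorem z100 {i : ℕ} (hi : 1 ≤ i) (h0 : z i = true) (h1 : z (i + 1) = false)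
    (h2 : z (i + 2) = false) : False := by
  rw [z_false] at h1 h2
  rcases h1 with h1 | h1 | ⟨n, hn, h1⟩
  · omega
  · have : i = 1 := by omega
    subst this
    rw [z1] at h0
    exact Bool.noConfusion h0
  · have := sq_big hn
    rcases h2 with h2 | h2 | ⟨m, hm, h2⟩
    · omega
    · omega
    · exact sq_gap (n := n) (m := m) (p := 1) le_rfl (by omega) (by omega)

/-- `z` is not eventually periodic. -/
theorem z_aper {p q : ℕ} (hp : 1 ≤ p) (h : ∀ i, q ≤ i → z (i + p) = z i) : False := by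
  have hn : q ≤ (q + p + 3) ^ 2 := by nlinarith
  have h1 := h _ hn
  rw [z_false.2 (Or.inr (Or.inr ⟨q + p + 3, by omega, rfl⟩)), z_false] at h1
  have := sq_big (n := q + p + 3) (by omega)
  rcases h1 with h1 | h1 | ⟨m, hm, h1⟩
  · omega
  · omega
  · exact sq_gap hp (by omega) h1

/-- the index plus the number of zeros of `z` up to the index -/
noncomputable def chi : ℕ → ℕ
  | 0 => 0
  | e + 1 => chi e + 1 + (if z (e + 1) = true then 0 else 1)

theorem chi_true {e : ℕ} (h : z (e + 1) = true) : chi (e + 1) = chi e + 1 := by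
  rw [chi, if_pos h]

theorem chi_false {e : ℕ} (h : z (e + 1) = false) : chi (e + 1) = chi e + 2 := by
  rw [chi, if_neg (by rw [h]; exact Bool.false_ne_true)]

theorem chi0 : chi 0 = 0 := rfl

theorem chi1 : chi 1 = 2 := by rw [chi_false z1, chi0]

theorem chi2 : chi 2 = 4 := by rw [chi_false z2, chi1]

theorem chi4 : chi 4 = 6 := by rw [chi_true z4, chi_true z3, chi2]

/-- the first place `d` where `y` and `z` differ has `chi d` odd -/
def U (y : ℕ → Bool) : Prop := ∃ d, (∀ i < d, y i = z i) ∧ y d ≠ z d ∧ chi d % 2 = 1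

theorem U_iff {y : ℕ → Bool} {d : ℕ} (h : ∀ i < d, y i = z i) (hd : y d ≠ z d) :
    U y ↔ chi d % 2 = 1 := by
  constructor
  · rintro ⟨d', h', hd', hc⟩
    rcases lt_trichotomy d d' with h1 | h1 | h1
    · exact absurd (h' d h1) hd
    · rwa [h1]
    · exact absurd (h d' h1) hd'
  · intro hc
    exact ⟨d, h, hd, hc⟩

theorem U_start {y : ℕ → Bool} (h : U y) : y 0 = true ∧ y 1 = false ∧ y 2 = false := by
  obtain ⟨d, h1, hd, hc⟩ := h
  have h3 : 3 ≤ d := by
    by_contra hcon
    have : d = 0 ∨ d = 1 ∨ d = 2 := by omega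
    rcases this with rfl | rfl | rfl
    · rw [chi0] at hc
      omega
    · rw [chi1] at hc
      omega
    · rw [chi2] at hc
      omega
  exact ⟨(h1 0 (by omega)).trans z0, (h1 1 (by omega)).trans z1, (h1 2 (by omega)).trans z2⟩

theorem not_U {y : ℕ → Bool} (h0 : y 0 = true) (h1 : y 1 = false) (h2 : y 2 = false)
    (h3 : y 3 = true) (h4 : y 4 = false) : ¬ U y := by
  intro h
  rw [U_iff (d := 4) (fun i hi => ?_) (by rw [h4, z4]; exact Bool.false_ne_true), chi4] at h
  · omega
  · have : i = 0 ∨ i = 1 ∨ i = 2 ∨ i = 3 := by omega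
    rcases this with rfl | rfl | rfl | rfl
    · rw [h0, z0]
    · rw [h1, z1]
    · rw [h2, z2]
    · rw [h3, z3]

theorem U_next {w : ℕ → Bool} {e : ℕ} (h : ∀ i ≤ e, w i = z i) (h1 : w (e + 1) = true)
    (h2 : w (e + 2) = false) (h3 : w (e + 3) = false) : U w ↔ chi e % 2 = 1 := by
  rcases Bool.eq_false_or_eq_true (z (e + 1)) with a1 | a1
  · rcases Bool.eq_false_or_eq_true (z (e + 2)) with a2 | a2
    · rw [U_iff (d := e + 2) (fun i hi => ?_) (by rw [h2, a2]; exact Bool.false_ne_true),
        chi_true a2, chi_true a1]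
      · omega
      · rcases Nat.lt_or_ge i (e + 1) with h4 | h4
        · exact h i (by omega)
        · have : i = e + 1 := by omega
          rw [this, h1, a1]
    · have a3 : z (e + 3) = true := by
        rcases Bool.eq_false_or_eq_true (z (e + 3)) with a3 | a3
        · exact a3
        · exact (z100 (i := e + 1) (by omega) a1 a2 a3).elim
      rw [U_iff (d := e + 3) (fun i hi => ?_) (by rw [h3, a3]; exact Bool.false_ne_true),
        chi_true a3, chi_false a2, chi_true a1]
      · omega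
      · rcases Nat.lt_or_ge i (e + 1) with h4 | h4
        · exact h i (by omega)
        · have : i = e + 1 ∨ i = e + 2 := by omega
          rcases this with h5 | h5
          · rw [h5, h1, a1]
          · rw [h5, h2, a2]
  · rw [U_iff (d := e + 1) (fun i hi => h i (by omega)) (by rw [h1, a1]; decide),
      chi_false a1]
    omega

/-- the tail from the place `j` on -/
def tl (y : ℕ → Bool) (j : ℕ) : ℕ → Bool := fun i => y (j + i)

/-- the symbol at `i` is changed iff the tail from `i + 1` on is in `U` -/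
noncomputable def H (y : ℕ → Bool) : ℕ → Bool := fun i => if U (tl y (i + 1)) then !(y i) else y i

theorem H_pos {y : ℕ → Bool} {i : ℕ} (h : U (tl y (i + 1))) : H y i = !(y i) := by
  unfold H
  rw [if_pos h]

theorem H_neg {y : ℕ → Bool} {i : ℕ} (h : ¬ U (tl y (i + 1))) : H y i = y i := by
  unfold H
  rw [if_neg h]

theorem tl_tl (y : ℕ → Bool) (j k : ℕ) : tl (tl y j) k = tl y (j + k) := by
  funext i
  unfold tl
  rw [Nat.add_assoc]

theorem H_tl (y : ℕ → Bool) (j : ℕ) : H (tl y j) = tl (H y) j := by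
  funext i
  have e : tl (tl y j) (i + 1) = tl y (j + i + 1) := tl_tl y j (i + 1)
  by_cases h : U (tl y (j + i + 1))
  · rw [H_pos (by rw [e]; exact h)]
    show (!(y (j + i))) = H y (j + i)
    rw [H_pos h]
  · rw [H_neg (by rw [e]; exact h)]
    show y (j + i) = H y (j + i)
    rw [H_neg h]

theorem H_start {v : ℕ → Bool} (h : U v) : H v 0 = true ∧ H v 1 = false ∧ H v 2 = false := by
  obtain ⟨h0, h1, h2⟩ := U_start h
  refine ⟨?_, ?_, ?_⟩
  · rw [H_neg, h0]
    intro hU
    have := (U_start hU).1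
    change v (0 + 1 + 0) = true at this
    rw [show (0 + 1 + 0) = 1 from rfl, h1] at this
    exact Bool.noConfusion this
  · rw [H_neg, h1]
    intro hU
    have := (U_start hU).1
    change v (1 + 1 + 0) = true at this
    rw [show (1 + 1 + 0) = 2 from rfl, h2] at this
    exact Bool.noConfusion this
  · rw [H_neg, h2]
    intro hU
    obtain ⟨a0, a1, a2⟩ := U_start hU
    change v (2 + 1 + 0) = true at a0
    change v (2 + 1 + 1) = false at a1
    exact not_U h0 h1 h2 a0 a1 h

theorem noflip {y : ℕ → Bool} {e i : ℕ} (hy : ∀ i < e, y i = z i) (hU : U (tl y (e + 1)))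
    (hi : i < e) : ¬ U (tl y (i + 1)) := by
  intro h
  obtain ⟨b0, b1, b2⟩ := U_start hU
  change y (e + 1 + 0) = true at b0
  change y (e + 1 + 1) = false at b1
  obtain ⟨a0, a1, a2⟩ := U_start h
  change y (i + 1 + 0) = true at a0
  change y (i + 1 + 1) = false at a1
  change y (i + 1 + 2) = false at a2
  rcases Nat.lt_or_ge (i + 3) e with h1 | h1
  · rw [hy _ (by omega)] at a0 a1 a2
    exact z100 (i := i + 1) (by omega) a0 a1 a2
  · have : e = i + 1 ∨ e = i + 2 ∨ e = i + 3 := by omega
    rcases this with h2 | h2 | h2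
    · subst h2
      rw [show i + 1 + 1 + 0 = i + 1 + 1 from rfl, a1] at b0
      exact Bool.noConfusion b0
    · subst h2
      rw [show i + 2 + 1 + 0 = i + 1 + 2 from rfl, a2] at b0
      exact Bool.noConfusion b0
    · subst h2
      exact not_U (y := tl y (i + 1)) a0 a1 a2 b0 b1 h

/-- `U` is invariant. -/
theorem U_H {y : ℕ → Bool} (hy : y ≠ z) : U (H y) ↔ U y := by
  have hex : ∃ d, y d ≠ z d := by
    by_contra hcon
    push Not at hcon
    exact hy (funext hcon)
  obtain ⟨d, h, hd⟩ : ∃ d, (∀ i < d, y i = z i) ∧ y d ≠ z d :=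
    ⟨Nat.find hex, fun i hi => not_not.1 (Nat.find_min hex hi), Nat.find_spec hex⟩
  by_cases hf : ∃ e, e ≤ d ∧ U (tl y (e + 1))
  · obtain ⟨e, hed, hU⟩ := hf
    have he : ∀ i < e, y i = z i := fun i hi => h i (by omega)
    have hHe : ∀ i < e, H y i = z i := fun i hi => by
      rw [H_neg (noflip he hU hi), he i hi]
    have hHe' : H y e = !(y e) := H_pos hU
    obtain ⟨a0, a1, a2⟩ := U_start hU
    obtain ⟨b0, b1, b2⟩ := H_start hU
    rw [H_tl] at b0 b1 b2
    by_cases hye : y e = z e
    · have e1 : U y ↔ chi e % 2 = 1 := by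
        refine U_next (fun i hi => ?_) a0 a1 a2
        rcases Nat.lt_or_ge i e with h1 | h1
        · exact he i h1
        · rw [show i = e by omega, hye]
      have e2 : U (H y) ↔ chi e % 2 = 1 := by
        refine U_iff hHe ?_
        rw [hHe', hye]
        cases z e <;> simp
      rw [e1, e2]
    · have e1 : U y ↔ chi e % 2 = 1 := U_iff he hye
      have e2 : U (H y) ↔ chi e % 2 = 1 := by
        refine U_next (fun i hi => ?_) b0 b1 b2
        rcases Nat.lt_or_ge i e with h1 | h1
        · exact hHe i h1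
        · rw [show i = e by omega, hHe']
          revert hye
          cases y e <;> cases z e <;> simp
      rw [e1, e2]
  · push Not at hf
    have e0 : ∀ i ≤ d, H y i = y i := fun i hi => H_neg (hf i hi)
    rw [U_iff h hd, U_iff (d := d) (fun i hi => by rw [e0 i hi.le, h i hi])
      (by rw [e0 d le_rfl]; exact hd)]

/-- no tail of `y` is `z` -/
def Good (y : ℕ → Bool) : Prop := ∀ j, tl y j ≠ z

theorem H_H {y : ℕ → Bool} (hy : Good y) : H (H y) = y := by
  funext i
  have h1 : U (tl (H y) (i + 1)) ↔ U (tl y (i + 1)) := by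
    rw [← H_tl]
    exact U_H (hy _)
  by_cases h : U (tl y (i + 1))
  · rw [H_pos (h1.2 h), H_pos h, Bool.not_not]
  · rw [H_neg fun hh => h (h1.1 hh), H_neg h]

theorem H_cont {y : ℕ → Bool} (hy : Good y) (n : ℕ) :
    ∃ m, ∀ y' : ℕ → Bool, (∀ i < m, y' i = y i) → ∀ i < n, H y' i = H y i := by
  have key : ∀ i, ∃ m, ∀ y' : ℕ → Bool, (∀ i < m, y' i = y i) → H y' i = H y i := by
    intro i
    have hex : ∃ d, tl y (i + 1) d ≠ z d := by
      by_contra hcon
      push Not at hcon
      exact hy (i + 1) (funext hcon)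
    obtain ⟨d, h, hd⟩ : ∃ d, (∀ t < d, tl y (i + 1) t = z t) ∧ tl y (i + 1) d ≠ z d :=
      ⟨Nat.find hex, fun i hi => not_not.1 (Nat.find_min hex hi), Nat.find_spec hex⟩
    refine ⟨i + 1 + d + 1, fun y' h' => ?_⟩
    have ht : ∀ t ≤ d, tl y' (i + 1) t = tl y (i + 1) t := fun t ht => h' _ (by omega)
    have hU : U (tl y' (i + 1)) ↔ U (tl y (i + 1)) := by
      rw [U_iff h hd, U_iff (d := d) (fun t h1 => by rw [ht t h1.le, h t h1])
        (by rw [ht d le_rfl]; exact hd)]
    by_cases h3 : U (tl y (i + 1))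
    · rw [H_pos (hU.2 h3), H_pos h3, h' i (by omega)]
    · rw [H_neg fun hh => h3 (hU.1 hh), H_neg h3, h' i (by omega)]
  induction n with
  | zero => exact ⟨0, fun y' _ i hi => absurd hi (by omega)⟩
  | succ n ih =>
    obtain ⟨m1, h1⟩ := ih
    obtain ⟨m2, h2⟩ := key n
    refine ⟨m1 + m2, fun y' h' i hi => ?_⟩
    rcases Nat.lt_or_ge i n with h3 | h3
    · exact h1 y' (fun t ht => h' t (by omega)) i h3
    · rw [show i = n by omega]
      exact h2 y' fun t ht => h' t (by omega)

/-- eventually periodic sequences -/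
def EP (y : ℕ → Bool) : Prop := ∃ p q, 1 ≤ p ∧ ∀ i, q ≤ i → y (i + p) = y i

theorem EP.good {y : ℕ → Bool} (h : EP y) : Good y := by
  intro j hj
  obtain ⟨p, q, hp, h1⟩ := h
  refine z_aper (p := p) (q := q) hp fun i hi => ?_
  rw [← hj]
  show y (j + (i + p)) = y (j + i)
  rw [← Nat.add_assoc]
  exact h1 _ (by omega)

theorem EP.H {y : ℕ → Bool} (h : EP y) : EP (H y) := by
  obtain ⟨p, q, hp, h1⟩ := h
  refine ⟨p, q, hp, fun i hi => ?_⟩
  have e : tl y (i + p + 1) = tl y (i + 1) := by
    funext t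
    show y (i + p + 1 + t) = y (i + 1 + t)
    rw [show i + p + 1 + t = (i + 1 + t) + p by omega]
    exact h1 _ (by omega)
  unfold NonRigid49.H
  rw [e, h1 i hi]

/-- the test sequences -/
noncomputable def X (a : ℕ → Bool) (r k : ℕ) : ℕ → Bool := fun i =>
  if i < r + 1 then a i else if i < r + 1 + k then z (i - (r + 1)) else
    if i = r + 1 + k then !(z k) else false

theorem X_EP (a : ℕ → Bool) (r k : ℕ) : EP (X a r k) := by
  refine ⟨1, r + 1 + k + 1, le_rfl, fun i hi => ?_⟩
  unfold X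
  rw [if_neg (by omega), if_neg (by omega), if_neg (by omega), if_neg (by omega),
    if_neg (by omega), if_neg (by omega)]

theorem X_U (a : ℕ → Bool) (r k : ℕ) : U (tl (X a r k) (r + 1)) ↔ chi k % 2 = 1 := by
  refine U_iff (fun i hi => ?_) ?_
  · show X a r k (r + 1 + i) = z i
    unfold X
    rw [if_neg (by omega), if_pos (by omega), show r + 1 + i - (r + 1) = i by omega]
  · show X a r k (r + 1 + k) ≠ z k
    unfold X
    rw [if_neg (by omega), if_neg (by omega), if_pos rfl]
    cases z k <;> simp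

/-- not uniformly continuous on any cylinder -/
theorem not_uniform (a : ℕ → Bool) (r m : ℕ) : ∃ x y : ℕ → Bool, EP x ∧ EP y ∧
    (∀ i < r + 1, x i = a i) ∧ (∀ i < r + 1, y i = a i) ∧ (∀ i < m, x i = y i) ∧
    NonRigid49.H x r ≠ NonRigid49.H y r := by
  obtain ⟨k, hk, hz⟩ : ∃ k, m ≤ k ∧ z (k + 1) = true := by
    refine ⟨(m + 3) ^ 2, by nlinarith, ?_⟩
    rw [z_true]
    have := sq_big (n := m + 3) (by omega)
    rintro (h | h | ⟨n, hn, h⟩)
    · omega
    · omega
    · exact sq_gap (p := 1) le_rfl (by omega) h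
  refine ⟨X a r k, X a r (k + 1), X_EP _ _ _, X_EP _ _ _, fun i hi => ?_, fun i hi => ?_,
    fun i hi => ?_, ?_⟩
  · unfold X
    rw [if_pos hi]
  · unfold X
    rw [if_pos hi]
  · unfold X
    by_cases h1 : i < r + 1
    · rw [if_pos h1, if_pos h1]
    · rw [if_neg h1, if_neg h1, if_pos (by omega), if_pos (by omega)]
  · have h1 := X_U a r k
    have h2 := X_U a r (k + 1)
    rw [chi_true hz] at h2
    have e1 : X a r k r = a r := by
      unfold X
      rw [if_pos (by omega)]
    have e2 : X a r (k + 1) r = a r := by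
      unfold X
      rw [if_pos (by omega)]
    by_cases h3 : chi k % 2 = 1
    · rw [H_pos (h1.2 h3), H_neg (fun h => by have := h2.1 h; omega), e1, e2]
      cases a r <;> simp
    · rw [H_neg (fun h => h3 (h1.1 h)), H_pos (h2.2 (by omega)), e1, e2]
      cases a r <;> simp

end NonRigid49
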