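import Pool.Agent.Lib.MP_b77ea7_nt.Realize
import Pool.Agent.Lib.MP_b77ea7_ntH49.DefsT
import Pool.Agent.Lib.MP_b77ea7_ntH49.Sym

/-!
# MP_b77ea7_nt: transfer of the involution to the points with a finite orbit (helper49)
-/

set_option autoImplicit false

open Classical

namespace TwoAdicQ

open NonRigid49

/-- the parity sequence with values in `Bool` -/
noncomputable def pb (k : ℕ) (x : ℚ) : ℕ → Bool := fun i => decide (Par k x i)

theorem pb_eq {k l : ℕ} {x y : ℚ} {i : ℕ} : pb k x i = pb l y i ↔ (Par k x i ↔ Par l y i) := by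
  unfold pb
  exact decide_eq_decide

theorem near_pb {k : ℕ} (hk : Odd k) {x y : ℚ} (hx : x ∈ D) (hy : y ∈ D) (n : ℕ) :
    Near n x y ↔ ∀ i < n, pb k x i = pb k y i := by
  rw [near_iff hk hx hy]
  exact forall_congr' fun i => imp_congr_right fun _ => pb_eq.symm

theorem pb_inj {k : ℕ} (hk : Odd k) {x y : ℚ} (hx : x ∈ D) (hy : y ∈ D)
    (h : pb k x = pb k y) : x = y :=
  eq_of_par hk hx hy fun i => pb_eq.1 (congrFun h i)

theorem pb_T (k : ℕ) (x : ℚ) : pb k (T k x) = tl (pb k x) 1 := by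
  funext i
  show decide (Par k (T k x) i) = decide (Par k x (1 + i))
  rw [decide_eq_decide]
  unfold Par
  rw [Nat.add_comm 1 i, Function.iterate_succ_apply]

theorem pb_EP {k : ℕ} {x : ℚ} (hx : x ∈ Fin49 k) : EP (pb k x) := by
  obtain ⟨i, j, hij, he⟩ := hx.2
  refine ⟨j - i, i, by omega, fun m hm => ?_⟩
  show decide (Par k x (m + (j - i))) = decide (Par k x m)
  rw [decide_eq_decide]
  unfold Par
  have e1 : m + (j - i) = (m - i) + j := by omega
  have e2 : m = (m - i) + i := by omega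
  rw [e1, Function.iterate_add_apply, ← he, ← Function.iterate_add_apply, ← e2]

theorem exists_pb {l : ℕ} (hl : Odd l) {s : ℕ → Bool} (hs : EP s) :
    ∃ y ∈ Fin49 l, pb l y = s := by
  obtain ⟨p, q, hp, h⟩ := hs
  obtain ⟨y, hy, hpar⟩ := realize (k := l) hl hp (q := q) (s := fun i => s i = true)
    (fun i hi => by rw [h i hi])
  refine ⟨y, ⟨hy, q, q + p, by omega, ?_⟩, ?_⟩
  · refine eq_of_par hl (iter_mem hl hy _) (iter_mem hl hy _) fun i => ?_
    have e1 : Par l ((T l)^[q] y) i ↔ Par l y (i + q) := by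
      unfold Par
      rw [← Function.iterate_add_apply]
    have e2 : Par l ((T l)^[q + p] y) i ↔ Par l y (i + (q + p)) := by
      unfold Par
      rw [← Function.iterate_add_apply]
    rw [e1, e2, hpar, hpar, show i + (q + p) = (i + q) + p by omega, h _ (by omega)]
  · funext i
    have h1 : pb l y i = true ↔ s i = true := by
      unfold pb
      rw [decide_eq_true_iff]
      exact hpar i
    exact Bool.eq_iff_iff.2 h1

/-- the map of the points given by a map of the parity sequences -/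
noncomputable def Fm (Φ : (ℕ → Bool) → ℕ → Bool) (k l : ℕ) (x : ℚ) : ℚ :=
  if h : ∃ y, y ∈ Fin49 l ∧ pb l y = Φ (pb k x) then h.choose else 0

section

variable {Φ : (ℕ → Bool) → ℕ → Bool} (hEP : ∀ s, EP s → EP (Φ s))
  (hinv : ∀ s, EP s → Φ (Φ s) = s) (htl : ∀ s, Φ (tl s 1) = tl (Φ s) 1)
  (hcont : ∀ s, EP s → ∀ n, ∃ m, ∀ s' : ℕ → Bool, (∀ i < m, s' i = s i) →
    ∀ i < n, Φ s' i = Φ s i)

include hEP in
theorem Fm_spec {k l : ℕ} (hl : Odd l) {x : ℚ} (hx : x ∈ Fin49 k) :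
    Fm Φ k l x ∈ Fin49 l ∧ pb l (Fm Φ k l x) = Φ (pb k x) := by
  have h : ∃ y, y ∈ Fin49 l ∧ pb l y = Φ (pb k x) := exists_pb hl (hEP _ (pb_EP hx))
  unfold Fm
  rw [dif_pos h]
  exact h.choose_spec

theorem T_Fin {k : ℕ} (hk : Odd k) {x : ℚ} (hx : x ∈ Fin49 k) : T k x ∈ Fin49 k := by
  refine ⟨T_mem hk hx.1, ?_⟩
  obtain ⟨i, j, hij, he⟩ := hx.2
  refine ⟨i, j, hij, ?_⟩
  rw [← Function.iterate_succ_apply, ← Function.iterate_succ_apply, Function.iterate_succ_apply',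
    Function.iterate_succ_apply', he]

include hEP hinv in
theorem Fm_Fm {k l : ℕ} (hk : Odd k) (hl : Odd l) {x : ℚ} (hx : x ∈ Fin49 k) :
    Fm Φ l k (Fm Φ k l x) = x := by
  obtain ⟨h1, h2⟩ := Fm_spec hEP hl hx
  obtain ⟨h3, h4⟩ := Fm_spec hEP hk h1
  refine pb_inj hk h3.1 hx.1 ?_
  rw [h4, h2, hinv _ (pb_EP hx)]

include hEP hcont in
theorem Fm_cont {k l : ℕ} (hk : Odd k) (hl : Odd l) : ContFin k (Fm Φ k l) := by
  intro x hx n
  obtain ⟨m, hm⟩ := hcont _ (pb_EP hx) n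
  refine ⟨m, fun y hy hxy => ?_⟩
  obtain ⟨h1, h2⟩ := Fm_spec hEP hl hx
  obtain ⟨h3, h4⟩ := Fm_spec hEP hl hy
  rw [near_pb hk hx.1 hy.1] at hxy
  rw [near_pb hl h1.1 h3.1, h2, h4]
  exact fun i hi => (hm (pb k y) (fun t ht => (hxy t ht).symm) i hi).symm

include hEP hinv htl hcont in
theorem Fm_conj {k l : ℕ} (hk : Odd k) (hl : Odd l) :
    TopConjFin k l (Fm Φ k l) (Fm Φ l k) where
  mh x hx := (Fm_spec hEP hl hx).1
  mg y hy := (Fm_spec hEP hk hy).1
  gh x hx := Fm_Fm hEP hinv hk hl hx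
  hg y hy := Fm_Fm hEP hinv hl hk hy
  eq x hx := by
    obtain ⟨h1, h2⟩ := Fm_spec hEP hl hx
    obtain ⟨h3, h4⟩ := Fm_spec hEP hl (T_Fin hk hx)
    refine pb_inj hl h3.1 (T_mem hl h1.1) ?_
    rw [h4, pb_T, pb_T, htl, h2]
  ch := Fm_cont hEP hcont hk hl
  cg := Fm_cont hEP hcont hl hk

end

theorem not_UCBall {k l : ℕ} (hk : Odd k) (hl : Odd l) : ¬ UCBallFin k (Fm NonRigid49.H k l) := by
  rintro ⟨a, ha, r, h⟩
  obtain ⟨m, hm⟩ := h (r + 1)
  obtain ⟨s, t, hs, ht, hsa, hta, hst, hne⟩ := not_uniform (pb k a) r m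
  obtain ⟨x, hx, rfl⟩ := exists_pb hk hs
  obtain ⟨y, hy, rfl⟩ := exists_pb hk ht
  have hEP : ∀ s, EP s → EP (NonRigid49.H s) := fun s hs => hs.H
  obtain ⟨h1, h2⟩ := Fm_spec hEP hl hx
  obtain ⟨h3, h4⟩ := Fm_spec hEP hl hy
  have h5 := hm x hx y hy ((near_pb hk ha.1 hx.1 r).2 fun i hi => (hsa i (by omega)).symm)
    ((near_pb hk ha.1 hy.1 r).2 fun i hi => (hta i (by omega)).symm)
    ((near_pb hk hx.1 hy.1 m).2 hst)
  rw [near_pb hl h1.1 h3.1, h2, h4] at h5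
  exact hne (h5 r (by omega))

/-- `T_k` and `T_l` on the points with finite orbits are conjugate by an isometry. -/
theorem iso_fin {k l : ℕ} (hk : Odd k) (hl : Odd l) : ∃ h g : ℚ → ℚ, TopConjFin k l h g ∧
    ∀ n, ∀ x ∈ Fin49 k, ∀ y ∈ Fin49 k, Near n x y ↔ Near n (h x) (h y) := by
  have hEP : ∀ s, EP s → EP (id s) := fun s hs => hs
  refine ⟨Fm id k l, Fm id l k, Fm_conj hEP (fun _ _ => rfl) (fun _ => rfl)
    (fun _ _ n => ⟨n, fun _ h => h⟩) hk hl, fun n x hx y hy => ?_⟩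
  obtain ⟨h1, h2⟩ := Fm_spec hEP hl hx
  obtain ⟨h3, h4⟩ := Fm_spec hEP hl hy
  rw [near_pb hk hx.1 hy.1, near_pb hl h1.1 h3.1, h2, h4]
  rfl

/-- They are also conjugate by a homeomorphism that is uniformly continuous on no ball, and neither
is its inverse. -/
theorem wild_fin {k l : ℕ} (hk : Odd k) (hl : Odd l) : ∃ h g : ℚ → ℚ, TopConjFin k l h g ∧
    ¬ UCBallFin k h ∧ ¬ UCBallFin l g :=
  ⟨Fm NonRigid49.H k l, Fm NonRigid49.H l k, Fm_conj (fun s hs => hs.H)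
    (fun s hs => H_H hs.good) (fun s => H_tl s 1) (fun s hs n => H_cont hs.good n) hk hl,
    not_UCBall hk hl, not_UCBall hl hk⟩

end TwoAdicQ
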